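import Mathlib
import Pool.Agent.W792.GK.Stm

/-!
# GK: elementary facts (operator bounds, integrals of analytic functions)
-/

namespace Pool.Agent.W230.GK

open MeasureTheory Pool.Agent.W792.GK Metric

lemma entry_le {n : Type} [Fintype n] {A : Matrix n n ℂ} {c : ℝ} (hc : 0 ≤ c)
    (h : OpB A c) (i j : n) : ‖A i j‖ ≤ c := by
  classical
  have h1 := h (Pi.single j 1)
  have h2 : ∑ i, ‖(Pi.single j (1 : ℂ) : n → ℂ) i‖ ^ 2 = 1 := by
    rw [Finset.sum_eq_single j]
    · simp
    · intro b _ hb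
      simp [hb]
    · simp
  rw [h2, Matrix.mulVec_single_one, mul_one] at h1
  have h3 : ‖A i j‖ ^ 2 ≤ ∑ i, ‖A.col j i‖ ^ 2 :=
    Finset.single_le_sum (f := fun i => ‖A.col j i‖ ^ 2) (fun _ _ => by positivity)
      (Finset.mem_univ i)
  exact abs_le_of_sq_le_sq' (h3.trans h1) hc |>.2

/-- the Euclidean norm -/
lemma toLp_sq {n : Type} [Fintype n] (u : n → ℂ) :
    ‖(WithLp.toLp 2 u : EuclideanSpace ℂ n)‖ ^ 2 = ∑ i, ‖u i‖ ^ 2 := by
  rw [EuclideanSpace.norm_sq_eq]

lemma fiber_OpB {Q : Type} [AddCommGroup Q] [Fintype Q] [DecidableEq Q] (κ : Q → ℂ) {R : ℝ}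
    (hR : 0 ≤ R) (w : Q → ℝ) (hw : ∀ x, |w x| ≤ R) :
    OpB (fun x y : Q => κ (x - y) + (if x = y then (w x : ℂ) else 0)) (∑ t, ‖κ t‖ + R) := by
  intro u
  set A : Matrix Q Q ℂ := fun x y : Q => κ (x - y) + (if x = y then (w x : ℂ) else 0) with hA
  have h1 : A.mulVec u = (fun x => ∑ t, κ t * u (x - t)) + fun x => (w x : ℂ) * u x := by
    funext x
    simp only [Matrix.mulVec, dotProduct, hA, Pi.add_apply, add_mul, Finset.sum_add_distrib]
    congr 1
    · refine (Fintype.sum_equiv (Equiv.subLeft x) _ _ fun t => ?_)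
      simp
    · simp
  have h2 : (WithLp.toLp 2 (A.mulVec u) : EuclideanSpace ℂ Q) =
      ∑ t, κ t • (WithLp.toLp 2 (fun x => u (x - t)) : EuclideanSpace ℂ Q) +
      WithLp.toLp 2 (fun x => (w x : ℂ) * u x) := by
    rw [h1]
    ext x
    simp
  have h3 : ∀ t, ‖(WithLp.toLp 2 (fun x => u (x - t)) : EuclideanSpace ℂ Q)‖ =
      ‖(WithLp.toLp 2 u : EuclideanSpace ℂ Q)‖ := by
    intro t
    have : ‖(WithLp.toLp 2 (fun x => u (x - t)) : EuclideanSpace ℂ Q)‖ ^ 2 =
        ‖(WithLp.toLp 2 u : EuclideanSpace ℂ Q)‖ ^ 2 := by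
      rw [toLp_sq, toLp_sq]
      exact Fintype.sum_equiv (Equiv.subRight t) _ _ fun x => by simp
    exact (sq_eq_sq₀ (norm_nonneg _) (norm_nonneg _)).1 this
  have h4 : ‖(WithLp.toLp 2 (fun x => (w x : ℂ) * u x) : EuclideanSpace ℂ Q)‖ ≤
      R * ‖(WithLp.toLp 2 u : EuclideanSpace ℂ Q)‖ := by
    have : ‖(WithLp.toLp 2 (fun x => (w x : ℂ) * u x) : EuclideanSpace ℂ Q)‖ ^ 2 ≤
        (R * ‖(WithLp.toLp 2 u : EuclideanSpace ℂ Q)‖) ^ 2 := by
      rw [toLp_sq, mul_pow, toLp_sq, Finset.mul_sum]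
      refine Finset.sum_le_sum fun x _ => ?_
      rw [norm_mul, mul_pow, Complex.norm_real, Real.norm_eq_abs]
      exact mul_le_mul_of_nonneg_right (pow_le_pow_left₀ (abs_nonneg _) (hw x) 2) (by positivity)
    exact abs_le_of_sq_le_sq' this (by positivity) |>.2
  have h5 : ‖(WithLp.toLp 2 (A.mulVec u) : EuclideanSpace ℂ Q)‖ ≤
      (∑ t, ‖κ t‖ + R) * ‖(WithLp.toLp 2 u : EuclideanSpace ℂ Q)‖ := by
    rw [h2]
    refine (norm_add_le _ _).trans ?_
    rw [add_mul]
    refine add_le_add ?_ h4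
    refine (norm_sum_le _ _).trans ?_
    rw [Finset.sum_mul]
    refine Finset.sum_le_sum fun t _ => ?_
    rw [norm_smul, h3]
  rw [← toLp_sq, ← toLp_sq, ← mul_pow]
  exact pow_le_pow_left₀ (norm_nonneg _) h5 2

lemma dd_bound {Q J : Type} [AddCommGroup Q] [Fintype Q] [DecidableEq Q] (κ : Q → ℂ) {R : ℝ}
    (hR : 0 ≤ R) (v : Q × J → ℝ) (p : J) (hv : ∀ q, |v q| ≤ R) (x y : Q) :
    ‖(dd κ v p : Matrix Q Q ℂ) x y‖ ≤ ∑ t, ‖κ t‖ + R :=
  entry_le (add_nonneg (Finset.sum_nonneg fun _ _ => norm_nonneg _) hR)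
    (fiber_OpB κ hR (fun x => v (x, p)) fun x => hv (x, p)) x y

/-- integrals of analytic functions on the upper half plane -/
lemma diff_int {α : Type} [MeasurableSpace α] (μ : Measure α) [IsProbabilityMeasure μ]
    (F : ℂ → α → ℂ) (hm : ∀ z : ℂ, 0 < z.im → Measurable (F z))
    (hd : ∀ a, DifferentiableOn ℂ (fun z => F z a) {z | 0 < z.im})
    (hb : ∀ z : ℂ, 0 < z.im → ∀ a, ‖F z a‖ ≤ 1 / z.im) :
    DifferentiableOn ℂ (fun z => ∫ a, F z a ∂μ) {z | 0 < z.im} := by
  have hopen : IsOpen {z : ℂ | 0 < z.im} := isOpen_lt continuous_const Complex.continuous_im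
  intro z₀ hz₀
  have hz₀' : 0 < z₀.im := hz₀
  set r : ℝ := z₀.im / 4 with hr
  have hr0 : 0 < r := by positivity
  have him : ∀ z : ℂ, ‖z - z₀‖ ≤ 2 * r → z₀.im / 2 ≤ z.im := by
    intro z hz
    have h1 := (Complex.abs_im_le_norm (z - z₀)).trans hz
    rw [Complex.sub_im, abs_le] at h1
    linarith [h1.1]
  have hda : ∀ a, ∀ z ∈ ball z₀ r, HasDerivAt (fun z => F z a) (deriv (fun z => F z a) z) z := by
    intro a z hz
    rw [mem_ball, dist_eq_norm] at hz
    have h1 : (0 : ℝ) < z.im := by linarith [him z (by linarith)]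
    exact ((hd a).differentiableAt (hopen.mem_nhds h1)).hasDerivAt
  have hder : ∀ a, ∀ z ∈ ball z₀ r, ‖deriv (fun z => F z a) z‖ ≤ (2 / z₀.im) / r := by
    intro a z hz
    rw [mem_ball, dist_eq_norm] at hz
    have hball : ∀ w ∈ closedBall z r, z₀.im / 2 ≤ w.im := by
      intro w hw
      rw [mem_closedBall, dist_eq_norm] at hw
      refine him w ?_
      have := norm_add_le (w - z) (z - z₀)
      rw [sub_add_sub_cancel] at this
      linarith
    refine Complex.norm_deriv_le_of_forall_mem_sphere_norm_le hr0 ?_ ?_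
    · refine DifferentiableOn.diffContOnCl ?_
      rw [closure_ball z hr0.ne']
      exact (hd a).mono fun w hw => by
        have := hball w hw
        show 0 < w.im
        linarith
    · intro w hw
      have h1 := hball w (sphere_subset_closedBall hw)
      have h2 : 0 < w.im := by linarith
      refine (hb w h2 a).trans ?_
      rw [div_le_div_iff₀ h2 hz₀']
      linarith
  have key := hasDerivAt_integral_of_dominated_loc_of_deriv_le (μ := μ) (F := F)
    (F' := fun z a => deriv (fun z => F z a) z) (x₀ := z₀) (s := ball z₀ r)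
    (bound := fun _ => (2 / z₀.im) / r) (ball_mem_nhds z₀ hr0) ?_ ?_ ?_ ?_ ?_ ?_
  · exact key.2.differentiableAt.differentiableWithinAt
  · filter_upwards [hopen.mem_nhds hz₀] with z hz
    exact (hm z hz).aestronglyMeasurable
  · refine Integrable.of_bound (hm z₀ hz₀').aestronglyMeasurable (1 / z₀.im) ?_
    exact Filter.Eventually.of_forall fun a => hb z₀ hz₀' a
  · -- measurability of the derivative
    have hseq : ∀ n : ℕ, 0 < (z₀ + ((r / (n + 1) : ℝ) : ℂ)).im := by
      intro n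
      rw [Complex.add_im, Complex.ofReal_im, add_zero]
      exact hz₀'
    refine aestronglyMeasurable_of_tendsto_ae Filter.atTop
      (f := fun (n : ℕ) a => ((r / (n + 1) : ℝ) : ℂ)⁻¹ • (F (z₀ + ((r / (n + 1) : ℝ) : ℂ)) a - F z₀ a))
      (fun n => ?_) (Filter.Eventually.of_forall fun a => ?_)
    · have h2 : Measurable fun a => F (z₀ + ((r / (n + 1) : ℝ) : ℂ)) a - F z₀ a :=
        (hm _ (hseq n)).sub (hm z₀ hz₀')
      exact (h2.const_smul (((r / (n + 1) : ℝ) : ℂ)⁻¹)).aestronglyMeasurable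
    · have h1 := (hda a z₀ (mem_ball_self hr0)).tendsto_slope_zero
      refine h1.comp ?_
      rw [tendsto_nhdsWithin_iff]
      constructor
      · have h2 : Filter.Tendsto (fun n : ℕ => r / ((n : ℝ) + 1)) Filter.atTop (nhds 0) :=
          tendsto_const_div_atTop_nhds_zero_nat r |>.comp (Filter.tendsto_add_atTop_nat 1) |>.congr
            (fun n => by simp)
        have h3 := (Complex.continuous_ofReal.tendsto (0 : ℝ)).comp h2
        rw [Complex.ofReal_zero] at h3
        exact h3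
      · refine Filter.Eventually.of_forall fun n => ?_
        simp only [Set.mem_compl_iff, Set.mem_singleton_iff, Complex.ofReal_eq_zero]
        positivity
  · exact Filter.Eventually.of_forall fun a z hz => hder a z hz
  · exact integrable_const _
  · exact Filter.Eventually.of_forall fun a z hz => hda a z hz

end Pool.Agent.W230.GK
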