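import Mathlib
import Pool.Agent.W230.GK.Basic

/-!
# GK-ALLZ: defects are small for all z in the upper half plane
-/

namespace Pool.Agent.W230.GK

open MeasureTheory Pool.Agent.W792.GK Metric

lemma pm_prob {Q J : Type} [Fintype Q] [Fintype J] (ν : Measure ℝ) [IsProbabilityMeasure ν] :
    IsProbabilityMeasure (pm Q J ν) := by
  unfold pm
  infer_instance

lemma ae_bdd {Q J : Type} [Fintype Q] [Fintype J] (ν : Measure ℝ) [IsProbabilityMeasure ν]
    {R : ℝ} (h : ν (Set.Icc (-R) R)ᶜ = 0) : ∀ᵐ v ∂(pm Q J ν), ∀ q, |v q| ≤ R := by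
  rw [ae_all_iff]
  intro q
  have h1 : ∀ᵐ t ∂ν, |t| ≤ R := by
    have h2 : ∀ᵐ t ∂ν, t ∈ Set.Icc (-R) R := by
      rw [ae_iff]
      exact h
    filter_upwards [h2] with t ht
    exact abs_le.2 ht
  exact (measurePreserving_eval (fun _ : Q × J => ν) q).quasiMeasurePreserving.ae h1

lemma core {Q : Type} [Fintype Q] {z₀ w : ℂ} {Rad L ε' : ℝ} {S : Finset ℂ}
    (hcont : ∀ f : ℂ → ℂ, DifferentiableOn ℂ f (ball z₀ Rad) →
      (∀ z ∈ ball z₀ Rad, ‖f z‖ ≤ 1) → ‖f w‖ ≤ L * ∑ ζ ∈ S, ‖f ζ‖ + ε')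
    (H : ℂ → Matrix Q Q ℂ) {M : ℝ} (hM : 0 < M)
    (hd : ∀ x y, DifferentiableOn ℂ (fun z => H z x y) (ball z₀ Rad))
    (hb : ∀ z ∈ ball z₀ Rad, ∀ x y, ‖H z x y‖ ≤ M) :
    e1 (H w) ≤ L * ∑ ζ ∈ S, e1 (H ζ) + (Fintype.card Q : ℝ) ^ 2 * (M * ε') := by
  have h1 : ∀ x y, ‖H w x y‖ ≤ L * ∑ ζ ∈ S, ‖H ζ x y‖ + M * ε' := by
    intro x y
    have h2 := hcont (fun z => ((M : ℂ)⁻¹) * H z x y) ((hd x y).const_mul _) (fun z hz => by
      rw [norm_mul, norm_inv, Complex.norm_real, Real.norm_eq_abs, abs_of_pos hM,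
        inv_mul_le_iff₀ hM, mul_one]
      exact hb z hz x y)
    simp only [norm_mul, norm_inv, Complex.norm_real, Real.norm_eq_abs, abs_of_pos hM] at h2
    rw [← Finset.mul_sum, inv_mul_le_iff₀ hM] at h2
    refine h2.trans (le_of_eq ?_)
    field_simp
  unfold e1
  calc ∑ x, ∑ y, ‖H w x y‖ ≤ ∑ x, ∑ y, (L * ∑ ζ ∈ S, ‖H ζ x y‖ + M * ε') :=
        Finset.sum_le_sum fun x _ => Finset.sum_le_sum fun y _ => h1 x y
    _ = _ := by
        simp only [Finset.sum_add_distrib, Finset.sum_const, Finset.card_univ, nsmul_eq_mul,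
          ← Finset.mul_sum]
        congr 1
        · congr 1
          rw [Finset.sum_comm]
          simp only [Finset.sum_comm (s := S)]
          rw [Finset.sum_comm]
        · ring

lemma integ {Q J : Type} [Fintype Q] [DecidableEq Q] [Fintype J] [DecidableEq J]
    (ν : Measure ℝ) [IsProbabilityMeasure ν] {R : ℝ} (hν : ν (Set.Icc (-R) R)ᶜ = 0)
    (H : (Q × J → ℝ) → Matrix Q Q ℂ) (hc : Continuous H) {M : ℝ}
    (hb : ∀ v : Q × J → ℝ, (∀ q, |v q| ≤ R) → ∀ x y, ‖H v x y‖ ≤ M) :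
    Integrable (fun v => e1 (H v)) (pm Q J ν) := by
  have := pm_prob (Q := Q) (J := J) ν
  have hcont : Continuous fun v => e1 (H v) := by
    unfold e1
    refine continuous_finsetSum _ fun x _ => continuous_finsetSum _ fun y _ => ?_
    exact ((continuous_apply y).comp ((continuous_apply x).comp hc)).norm
  refine Integrable.of_bound hcont.aestronglyMeasurable
    (∑ _x : Q, ∑ _y : Q, M) ?_
  filter_upwards [ae_bdd (Q := Q) (J := J) ν hν] with v hv
  have h0 : 0 ≤ e1 (H v) := by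
    unfold e1
    exact Finset.sum_nonneg fun _ _ => Finset.sum_nonneg fun _ _ => norm_nonneg _
  rw [Real.norm_eq_abs, abs_of_nonneg h0]
  unfold e1
  exact Finset.sum_le_sum fun x _ => Finset.sum_le_sum fun y _ => hb v hv x y

lemma final {Q J : Type} [Fintype Q] [DecidableEq Q] [Fintype J] [DecidableEq J]
    (ν : Measure ℝ) [IsProbabilityMeasure ν] {R : ℝ} (hν : ν (Set.Icc (-R) R)ᶜ = 0)
    {z₀ w : ℂ} {Rad L ε' : ℝ} {S : Finset ℂ}
    (hcont : ∀ f : ℂ → ℂ, DifferentiableOn ℂ f (ball z₀ Rad) →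
      (∀ z ∈ ball z₀ Rad, ‖f z‖ ≤ 1) → ‖f w‖ ≤ L * ∑ ζ ∈ S, ‖f ζ‖ + ε')
    (hS : ∀ ζ ∈ S, ζ ∈ ball z₀ Rad) (hw : w ∈ ball z₀ Rad)
    (H : (Q × J → ℝ) → ℂ → Matrix Q Q ℂ) {M : ℝ} (hM : 0 < M)
    (hc : ∀ z ∈ ball z₀ Rad, Continuous fun v => H v z)
    (hd : ∀ v x y, DifferentiableOn ℂ (fun z => H v z x y) (ball z₀ Rad))
    (hb : ∀ v : Q × J → ℝ, (∀ q, |v q| ≤ R) → ∀ z ∈ ball z₀ Rad, ∀ x y, ‖H v z x y‖ ≤ M) :
    ∫ v, e1 (H v w) ∂(pm Q J ν) ≤ L * ∑ ζ ∈ S, ∫ v, e1 (H v ζ) ∂(pm Q J ν) +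
      (Fintype.card Q : ℝ) ^ 2 * (M * ε') := by
  have := pm_prob (Q := Q) (J := J) ν
  have hi : ∀ z ∈ ball z₀ Rad, Integrable (fun v => e1 (H v z)) (pm Q J ν) :=
    fun z hz => integ ν hν (fun v => H v z) (hc z hz) fun v hv => hb v hv z hz
  have hsum : Integrable (fun v => L * ∑ ζ ∈ S, e1 (H v ζ)) (pm Q J ν) :=
    (integrable_finsetSum S fun ζ hζ => hi ζ (hS ζ hζ)).const_mul L
  calc ∫ v, e1 (H v w) ∂(pm Q J ν)
      ≤ ∫ v, (L * ∑ ζ ∈ S, e1 (H v ζ) + (Fintype.card Q : ℝ) ^ 2 * (M * ε')) ∂(pm Q J ν) := by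
        refine integral_mono_ae (hi w hw) (hsum.add (integrable_const _)) ?_
        filter_upwards [ae_bdd (Q := Q) (J := J) ν hν] with v hv
        exact core hcont (H v) hM (hd v) (hb v hv)
    _ = _ := by
        rw [integral_add hsum (integrable_const _), integral_const_mul,
          integral_finsetSum S fun ζ hζ => hi ζ (hS ζ hζ)]
        simp

lemma mul_entry_bd {Q : Type} [Fintype Q] [DecidableEq Q] {f g : Matrix Q Q ℂ} {a b : ℝ}
    (ha : 0 ≤ a) (hf : ∀ x y, ‖f x y‖ ≤ a) (hg : ∀ x y, ‖g x y‖ ≤ b) (x y : Q) :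
    ‖(1 - f * g) x y‖ ≤ 1 + Fintype.card Q * (a * b) := by
  rw [Matrix.sub_apply, Matrix.mul_apply]
  refine (norm_sub_le _ _).trans (add_le_add ?_ ?_)
  · rw [Matrix.one_apply]
    split_ifs <;> simp
  · refine (norm_sum_le _ _).trans ?_
    calc ∑ i, ‖f x i * g i y‖ ≤ ∑ _i : Q, a * b := Finset.sum_le_sum fun i _ => by
          rw [norm_mul]
          exact mul_le_mul (hf x i) (hg i y) (norm_nonneg _) ha
      _ = _ := by simp

lemma mul_entry_diff {Q : Type} [Fintype Q] [DecidableEq Q] {f g : ℂ → Matrix Q Q ℂ} {U : Set ℂ}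
    (hf : ∀ x y, DifferentiableOn ℂ (fun z => f z x y) U)
    (hg : ∀ x y, DifferentiableOn ℂ (fun z => g z x y) U) (x y : Q) :
    DifferentiableOn ℂ (fun z => (1 - f z * g z) x y) U := by
  have h1 : (fun z => (1 - f z * g z) x y) =
      fun z => (1 : Matrix Q Q ℂ) x y - ∑ i, f z x i * g z i y := by
    funext z
    rw [Matrix.sub_apply, Matrix.mul_apply]
  rw [h1]
  exact (differentiableOn_const _).sub (DifferentiableOn.fun_sum fun i _ => (hf x i).mul (hg i y))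

/-- the bounds hold for smaller `δ` and larger `n₀` -/
lemma adm_mono {J : Type} [Fintype J] [DecidableEq J] {s δ δ' : ℝ} {n n' : ℕ} {A : Matrix J J ℂ}
    (h : Adm s δ n A) (hδ : δ ≤ δ') (hn : n' ≤ n) : Adm s δ' n' A :=
  ⟨h.1, h.2.1, fun m h1 h2 i j => (h.2.2 m h1 (h2.trans hn) i j).trans hδ⟩

theorem main (hLZ : S_LZ) (hCONT : S_CONT) (hGR : S_GR) : S_ALLZ := by
  intro Q _ _ _ κ hκ s R hs hRp z hz ε hε
  set η : ℝ := z.im with hη
  set C : ℝ := ∑ t, ‖κ t‖ + R with hC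
  have hC0 : 0 ≤ C := add_nonneg (Finset.sum_nonneg fun _ _ => norm_nonneg _) hRp.le
  set Y : ℝ := 64 * (C + s + 1) + 2 + η with hY
  set z₀ : ℂ := ⟨z.re, Y⟩ with hz₀
  set Rad : ℝ := Y - η / 2 with hRad
  set Bz : ℝ := |z.re| + 2 * Y with hBz
  have hY0 : 0 < Y := by positivity
  have hB0 : 0 ≤ Bz := by positivity
  set a : ℝ := C + Bz + s ^ 2 * (2 / η) with ha
  have ha0 : 0 ≤ a := by positivity
  set b : ℝ := 2 / η with hb
  have hb0 : 0 < b := by positivity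
  set M : ℝ := 1 + Fintype.card Q * (a * b) with hM
  have hM0 : 0 < M := by positivity
  -- geometry of the ball
  have hball_im : ∀ ζ ∈ ball z₀ Rad, η / 2 < ζ.im := by
    intro ζ hζ
    rw [mem_ball, dist_eq_norm] at hζ
    have h1 := (Complex.abs_im_le_norm (ζ - z₀)).trans_lt hζ
    rw [Complex.sub_im, abs_lt] at h1
    have h2 : z₀.im = Y := rfl
    rw [h2] at h1
    linarith [h1.1]
  have hnz₀ : ‖z₀‖ ≤ |z.re| + Y := by
    refine (Complex.norm_le_abs_re_add_abs_im z₀).trans (le_of_eq ?_)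
    show |z.re| + |Y| = _
    rw [abs_of_pos hY0]
  have hball_norm : ∀ ζ ∈ ball z₀ Rad, ‖ζ‖ ≤ Bz := by
    intro ζ hζ
    rw [mem_ball, dist_eq_norm] at hζ
    have h1 := norm_add_le (ζ - z₀) z₀
    rw [sub_add_cancel] at h1
    linarith
  have hball_pos : ball z₀ Rad ⊆ {ζ : ℂ | 0 < ζ.im} := by
    intro ζ hζ
    have := hball_im ζ hζ
    show 0 < ζ.im
    linarith
  have hwz : ‖z - z₀‖ < Rad := by
    have h1 : z - z₀ = (((η - Y : ℝ) : ℂ)) * Complex.I := by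
      apply Complex.ext <;> simp [hz₀, hη]
    rw [h1, norm_mul, Complex.norm_I, mul_one, Complex.norm_real, Real.norm_eq_abs,
      abs_of_neg (by linarith)]
    linarith
  set ε' : ℝ := ε / (2 * ((Fintype.card Q : ℝ) ^ 2 * M + 1)) with hε'
  have hε'0 : 0 < ε' := by positivity
  obtain ⟨S, L, hL0, hS, hcont⟩ := hCONT z₀ z 1 Rad one_pos (by linarith) hwz ε' hε'0
  have hSball : ∀ ζ ∈ S, ζ ∈ ball z₀ Rad := by
    intro ζ hζ
    rw [mem_ball, dist_eq_norm, hS ζ hζ]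
    linarith
  have hSbig : ∀ ζ ∈ S, 64 * (C + s + 1) ≤ ‖ζ‖ := by
    intro ζ hζ
    have h1 := (Complex.abs_im_le_norm (ζ - z₀))
    rw [hS ζ hζ, Complex.sub_im, abs_le] at h1
    have h2 : z₀.im = Y := rfl
    rw [h2] at h1
    have h3 := (le_abs_self _).trans (Complex.abs_im_le_norm ζ)
    linarith [h1.1]
  set ε'' : ℝ := ε / (2 * ((L + 1) * (S.card + 1))) with hε''
  have hε''0 : 0 < ε'' := by positivity
  -- uniform choice of the parameters
  have huni : ∀ S' : Finset ℂ, (∀ ζ ∈ S', 64 * (C + s + 1) ≤ ‖ζ‖) → ∃ (δ : ℝ) (n₀ : ℕ), 0 < δ ∧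
      ∀ ζ ∈ S', ∀ (J : Type) [Fintype J] [DecidableEq J] (A : Matrix J J ℂ) (p : J)
      (ν : Measure ℝ) [IsProbabilityMeasure ν], ν (Set.Icc (-R) R)ᶜ = 0 → Adm s δ n₀ A →
      (∫ v, e1 (hL s κ A ν v ζ p) ∂(pm Q J ν) ≤ ε'') ∧
        (∫ v, e1 (hR s κ A ν v ζ p) ∂(pm Q J ν) ≤ ε'') := by
    intro S'
    induction S' using Finset.induction_on with
    | empty => intro _; exact ⟨1, 0, one_pos, fun ζ hζ => absurd hζ (Finset.notMem_empty ζ)⟩
    | insert ζ₀ S' _ ih =>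
      intro hbig
      obtain ⟨δ1, n1, hδ1, h1⟩ := ih fun ζ hζ => hbig ζ (Finset.mem_insert_of_mem hζ)
      obtain ⟨δ2, n2, hδ2, h2⟩ := hLZ Q κ s R C hs hRp (fun w hw => fiber_OpB κ hRp.le w hw) hC0 ζ₀
        (hbig ζ₀ (Finset.mem_insert_self _ _)) ε'' hε''0
      refine ⟨min δ1 δ2, max n1 n2, lt_min hδ1 hδ2, fun ζ hζ J _ _ A p ν _ hν hA => ?_⟩
      rcases Finset.mem_insert.1 hζ with h | h
      · subst h
        exact h2 J A p ν hν (adm_mono hA (min_le_right _ _) (le_max_right _ _))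
      · exact h1 ζ h J A p ν hν (adm_mono hA (min_le_left _ _) (le_max_left _ _))
  obtain ⟨δ, n₀, hδ, huni⟩ := huni S hSbig
  refine ⟨δ, n₀, hδ, fun J _ _ A p ν _ hν hA => ?_⟩
  have := pm_prob (Q := Q) (J := J) ν
  obtain ⟨-, -, g3, g4, g5, -⟩ := hGR Q J κ hκ A hA.1 p
  -- facts on `gr`
  have hgc : ∀ ζ : ℂ, 0 < ζ.im → Continuous fun v : Q × J → ℝ => gr κ A v ζ p :=
    fun ζ hζ => g3 ζ hζ.ne'
  have hgb : ∀ ζ : ℂ, 0 < ζ.im → ∀ (v : Q × J → ℝ) x y, ‖gr κ A v ζ p x y‖ ≤ 1 / ζ.im :=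
    fun ζ hζ v x y => entry_le (by positivity) (g4 ζ hζ v).2.2 x y
  have hmb : ∀ ζ : ℂ, 0 < ζ.im → ∀ x y, ‖mg κ A ν ζ p x y‖ ≤ 1 / ζ.im := by
    intro ζ hζ x y
    unfold mg
    refine (norm_integral_le_of_norm_le_const (Filter.Eventually.of_forall fun v =>
      hgb ζ hζ v x y)).trans (le_of_eq ?_)
    simp
  have hmd : ∀ x y, DifferentiableOn ℂ (fun ζ => mg κ A ν ζ p x y) {ζ | 0 < ζ.im} := by
    intro x y
    refine diff_int (pm Q J ν) (fun ζ v => gr κ A v ζ p x y) (fun ζ hζ => ?_) (fun v => g5 v x y)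
      (fun ζ hζ v => hgb ζ hζ v x y)
    exact ((continuous_apply y).comp ((continuous_apply x).comp (hgc ζ hζ))).measurable
  -- the other factor
  set X : (Q × J → ℝ) → ℂ → Matrix Q Q ℂ := fun v ζ =>
    dd κ v p - ζ • (1 : Matrix Q Q ℂ) - ((s ^ 2 : ℝ) : ℂ) • mg κ A ν ζ p with hX
  have hXe : ∀ v ζ x y, X v ζ x y = (dd κ v p : Matrix Q Q ℂ) x y - ζ * (1 : Matrix Q Q ℂ) x y -
      ((s ^ 2 : ℝ) : ℂ) * mg κ A ν ζ p x y := fun v ζ x y => rfl
  have hXc : ∀ ζ, Continuous fun v => X v ζ := by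
    intro ζ
    refine continuous_matrix fun x y => ?_
    simp only [hXe]
    have h1 : Continuous fun v : Q × J → ℝ => (dd κ v p : Matrix Q Q ℂ) x y := by
      unfold dd
      by_cases hxy : x = y
      · simp only [hxy, if_true]
        exact continuous_const.add (Complex.continuous_ofReal.comp (continuous_apply _))
      · simp only [hxy, if_false]
        exact continuous_const
    exact (h1.sub continuous_const).sub continuous_const
  have hXd : ∀ v x y, DifferentiableOn ℂ (fun ζ => X v ζ x y) (ball z₀ Rad) := by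
    intro v x y
    simp only [hXe]
    exact ((differentiableOn_const _).sub (differentiableOn_id.mul_const _)).sub
      (((hmd x y).mono hball_pos).const_mul _)
  have hXb : ∀ v : Q × J → ℝ, (∀ q, |v q| ≤ R) → ∀ ζ ∈ ball z₀ Rad, ∀ x y, ‖X v ζ x y‖ ≤ a := by
    intro v hv ζ hζ x y
    rw [hXe]
    have h1 := dd_bound κ hRp.le v p hv x y
    have him := hball_im ζ hζ
    have h2 : ‖ζ * (1 : Matrix Q Q ℂ) x y‖ ≤ Bz := by
      rw [norm_mul]
      have h3 : ‖(1 : Matrix Q Q ℂ) x y‖ ≤ 1 := by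
        rw [Matrix.one_apply]
        split_ifs <;> simp
      calc ‖ζ‖ * ‖(1 : Matrix Q Q ℂ) x y‖ ≤ Bz * 1 :=
            mul_le_mul (hball_norm ζ hζ) h3 (norm_nonneg _) hB0
        _ = Bz := mul_one _
    have h3 : ‖((s ^ 2 : ℝ) : ℂ) * mg κ A ν ζ p x y‖ ≤ s ^ 2 * (2 / η) := by
      rw [norm_mul, Complex.norm_real, Real.norm_eq_abs, abs_of_nonneg (by positivity)]
      refine mul_le_mul_of_nonneg_left ((hmb ζ (by linarith) x y).trans ?_) (by positivity)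
      rw [div_le_div_iff₀ (by linarith) hz]
      linarith
    calc ‖(dd κ v p : Matrix Q Q ℂ) x y - ζ * (1 : Matrix Q Q ℂ) x y -
          ((s ^ 2 : ℝ) : ℂ) * mg κ A ν ζ p x y‖ ≤ ‖(dd κ v p : Matrix Q Q ℂ) x y‖ +
          ‖ζ * (1 : Matrix Q Q ℂ) x y‖ + ‖((s ^ 2 : ℝ) : ℂ) * mg κ A ν ζ p x y‖ :=
          (norm_sub_le _ _).trans (add_le_add (norm_sub_le _ _) le_rfl)
      _ ≤ a := by rw [ha]; linarith
  have hGb : ∀ v : Q × J → ℝ, ∀ ζ ∈ ball z₀ Rad, ∀ x y, ‖gr κ A v ζ p x y‖ ≤ b := by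
    intro v ζ hζ x y
    have him := hball_im ζ hζ
    refine (hgb ζ (by linarith) v x y).trans ?_
    rw [hb, div_le_div_iff₀ (by linarith) hz]
    linarith
  have hGd : ∀ (v : Q × J → ℝ) x y, DifferentiableOn ℂ (fun ζ => gr κ A v ζ p x y) (ball z₀ Rad) :=
    fun v x y => (g5 v x y).mono hball_pos
  have hbound : L * ∑ _ζ ∈ S, ε'' + (Fintype.card Q : ℝ) ^ 2 * (M * ε') ≤ ε := by
    have h1 : L * ∑ _ζ ∈ S, ε'' ≤ ε / 2 := by
      rw [Finset.sum_const, nsmul_eq_mul, hε'']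
      have h2 : L * ((S.card : ℝ) * (ε / (2 * ((L + 1) * (S.card + 1))))) =
          (ε / 2) * ((L * S.card) / ((L + 1) * (S.card + 1))) := by
        field_simp
      rw [h2]
      have h3 : (L * S.card) / ((L + 1) * (S.card + 1)) ≤ 1 := by
        rw [div_le_one (by positivity)]
        have : (0 : ℝ) ≤ S.card := Nat.cast_nonneg _
        nlinarith
      calc (ε / 2) * ((L * S.card) / ((L + 1) * (S.card + 1))) ≤ ε / 2 * 1 :=
            mul_le_mul_of_nonneg_left h3 (by positivity)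
        _ = ε / 2 := mul_one _
    have h2 : (Fintype.card Q : ℝ) ^ 2 * (M * ε') ≤ ε / 2 := by
      rw [hε']
      have h3 : (Fintype.card Q : ℝ) ^ 2 * (M * (ε / (2 * ((Fintype.card Q : ℝ) ^ 2 * M + 1)))) =
          (ε / 2) * (((Fintype.card Q : ℝ) ^ 2 * M) / ((Fintype.card Q : ℝ) ^ 2 * M + 1)) := by
        field_simp
      rw [h3]
      have h4 : ((Fintype.card Q : ℝ) ^ 2 * M) / ((Fintype.card Q : ℝ) ^ 2 * M + 1) ≤ 1 := by
        rw [div_le_one (by positivity)]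
        linarith
      calc _ ≤ ε / 2 * 1 := mul_le_mul_of_nonneg_left h4 (by positivity)
        _ = ε / 2 := mul_one _
    linarith
  have hzball : z ∈ ball z₀ Rad := by
    rw [mem_ball, dist_eq_norm]
    exact hwz
  constructor
  · have h := final ν hν hcont hSball hzball (fun v ζ => hL s κ A ν v ζ p) hM0
      (fun ζ hζ => by
        unfold hL
        exact continuous_const.sub ((hXc ζ).matrix_mul (hgc ζ (hball_pos hζ))))
      (fun v x y => mul_entry_diff (hXd v) (hGd v) x y)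
      (fun v hv ζ hζ x y => mul_entry_bd ha0 (hXb v hv ζ hζ) (hGb v ζ hζ) x y)
    refine h.trans (le_trans ?_ hbound)
    refine add_le_add (mul_le_mul_of_nonneg_left (Finset.sum_le_sum fun ζ hζ => ?_) hL0) le_rfl
    exact (huni ζ hζ J A p ν hν hA).1
  · have h := final ν hν hcont hSball hzball (fun v ζ => hR s κ A ν v ζ p) hM0
      (fun ζ hζ => by
        unfold hR
        exact continuous_const.sub ((hgc ζ (hball_pos hζ)).matrix_mul (hXc ζ)))
      (fun v x y => mul_entry_diff (hGd v) (hXd v) x y)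
      (fun v hv ζ hζ x y => (mul_entry_bd hb0.le (hGb v ζ hζ) (hXb v hv ζ hζ) x y).trans
        (le_of_eq (by rw [hM, mul_comm a b])))
    refine h.trans (le_trans ?_ hbound)
    refine add_le_add (mul_le_mul_of_nonneg_left (Finset.sum_le_sum fun ζ hζ => ?_) hL0) le_rfl
    exact (huni ζ hζ J A p ν hν hA).2

end Pool.Agent.W230.GK
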