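import Pool.Agent.W345.GK.Cl2

set_option autoImplicit false

open Polynomial Finset Pool.Agent.W345.GK
open scoped nonZeroDivisors

namespace Pool.Agent.W230.GK

theorem le_ram {R S : Type} [CommRing R] [CommRing S] [Algebra R S] [IsDedekindDomain S]
    {p : Ideal R} (hp0 : Ideal.map (algebraMap R S) p ≠ ⊥) {q : Ideal S} (hq : q.IsPrime)
    {n : ℕ} (h : Ideal.map (algebraMap R S) p ≤ q ^ n) :
    n ≤ Ideal.ramificationIdx' p q := by
  rw [Ideal.IsDedekindDomain.ramificationIdx'_eq_multiplicity hp0 hq]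
  refine (FiniteMultiplicity.pow_dvd_iff_le_multiplicity ?_).1 (Ideal.dvd_iff_le.2 h)
  refine FiniteMultiplicity.of_not_isUnit ?_ hp0
  rw [Ideal.isUnit_iff]
  exact hq.ne_top

theorem key {R S K L : Type} [CommRing R] [CommRing S] [Algebra R S] [Field K] [Field L]
    [IsDedekindDomain R] [IsDedekindDomain S] [Algebra R K] [IsFractionRing R K]
    [Algebra S L] [IsFractionRing S L] [Algebra K L] [Algebra R L] [IsScalarTower R S L]
    [IsScalarTower R K L] [Module.Finite R S] [Module.IsTorsionFree R S] {p : Ideal R} [hpm : p.IsMaximal] (hp0 : p ≠ ⊥)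
    (hmp0 : Ideal.map (algebraMap R S) p ≠ ⊥)
    {I : Ideal S} {n : ℕ} (hn : 0 < n) (hI : I ^ n = Ideal.map (algebraMap R S) p)
    (hfin : Module.finrank K L = n) :
    I.IsPrime ∧ ∀ q : Ideal S, q.IsPrime → Ideal.map (algebraMap R S) p ≤ q → q = I := by
  classical
  have hI0 : I ≠ ⊥ := by
    intro h
    apply hmp0
    rw [← hI, h]
    exact zero_pow hn.ne'
  have hsum := Ideal.sum_ramification_inertia S K L hp0
  rw [hfin] at hsum
  have hmem : ∀ q : Ideal S, q.IsPrime → Ideal.map (algebraMap R S) p ≤ q →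
      q ∈ IsDedekindDomain.primesOverFinset p S := by
    intro q hq h
    rw [IsDedekindDomain.mem_primesOverFinset_iff hp0]
    refine ⟨hq, ⟨?_⟩⟩
    refine hpm.eq_of_le ?_ (Ideal.map_le_iff_le_comap.1 h)
    exact (hq.comap (algebraMap R S)).ne_top
  have hle : ∀ q : Ideal S, q.IsPrime → Ideal.map (algebraMap R S) p ≤ q → I ≤ q := by
    intro q hq h
    rw [← hI] at h
    exact hq.le_of_pow_le h
  have hterm : ∀ q ∈ IsDedekindDomain.primesOverFinset p S, ∀ m : ℕ, I ≤ q ^ m →
      m * n ≤ Ideal.ramificationIdx' p q * Ideal.inertiaDeg' p q := by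
    intro q hq m hm
    obtain ⟨hq1, hq2⟩ := (IsDedekindDomain.mem_primesOverFinset_iff hp0 _).1 hq
    have : q.IsPrime := hq1
    have : q.LiesOver p := hq2
    have hq0 : q ≠ ⊥ := by
      rintro rfl
      apply hmp0
      rw [← le_bot_iff, Ideal.map_le_iff_le_comap]
      exact le_of_eq ((Ideal.liesOver_iff _ _).1 hq2)
    have h1 : m * n ≤ Ideal.ramificationIdx' p q := by
      refine le_ram hmp0 hq1 ?_
      rw [← hI, pow_mul]
      exact Ideal.pow_right_mono hm n
    exact h1.trans (Nat.le_mul_of_pos_right _ (Ideal.inertiaDeg'_pos p q))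
  have hover : ∀ q ∈ IsDedekindDomain.primesOverFinset p S,
      Ideal.map (algebraMap R S) p ≤ q ∧ q.IsPrime := by
    intro q hq
    obtain ⟨hq1, hq2⟩ := (IsDedekindDomain.mem_primesOverFinset_iff hp0 _).1 hq
    exact ⟨Ideal.map_le_iff_le_comap.2 (le_of_eq ((Ideal.liesOver_iff _ _).1 hq2)), hq1⟩
  obtain ⟨q, hq⟩ : (IsDedekindDomain.primesOverFinset p S).Nonempty := by
    rw [Finset.nonempty_iff_ne_empty]
    intro h
    rw [h, Finset.sum_empty] at hsum
    omega
  have huniq : ∀ q' ∈ IsDedekindDomain.primesOverFinset p S, q' = q := by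
    intro q' hq'
    by_contra hne
    have h1 := hterm q hq 1 (by rw [pow_one]; exact hle q (hover q hq).2 (hover q hq).1)
    have h2 := hterm q' hq' 1 (by rw [pow_one]; exact hle q' (hover q' hq').2 (hover q' hq').1)
    have h3 := Finset.sum_le_sum_of_subset (s := {q', q})
      (f := fun P => Ideal.ramificationIdx' p P * Ideal.inertiaDeg' p P)
      (t := IsDedekindDomain.primesOverFinset p S) (by
        intro x hx
        rw [Finset.mem_insert, Finset.mem_singleton] at hx
        rcases hx with rfl | rfl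
        · exact hq'
        · exact hq)
    rw [Finset.sum_pair hne, hsum] at h3
    omega
  have hIq : q = I := by
    obtain ⟨J, hJ⟩ := Ideal.dvd_iff_le.2 (hle q (hover q hq).2 (hover q hq).1)
    by_cases hJt : J = ⊤
    · rw [hJ, hJt, Ideal.mul_top]
    · exfalso
      obtain ⟨𝔪, h𝔪, hJm⟩ := Ideal.exists_le_maximal J hJt
      have h1 : I ≤ 𝔪 := by
        rw [hJ]
        exact (Ideal.mul_le_right (I := q) (J := J)).trans hJm
      have h2 : Ideal.map (algebraMap R S) p ≤ 𝔪 := by
        rw [← hI]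
        exact (Ideal.pow_le_self hn.ne').trans h1
      have h3 := huniq 𝔪 (hmem 𝔪 h𝔪.isPrime h2)
      subst h3
      have h4 := hterm 𝔪 hq 2 (by rw [hJ, pow_two]; exact Ideal.mul_mono_right hJm)
      have h5 := Finset.single_le_sum
        (f := fun P => Ideal.ramificationIdx' p P * Ideal.inertiaDeg' p P)
        (fun _ _ => Nat.zero_le _) hq
      rw [hsum] at h5
      have h6 := h4.trans h5
      omega
  subst hIq
  exact ⟨(hover q hq).2, fun q' hq' h => huniq q' (hmem q' hq' h)⟩

theorem coeff_pol {k : Type} [Field k] {N : ℕ} (c : Fin N → k) (n : ℕ) :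
    (pol c).coeff n = if h : n < N then c ⟨n, h⟩ else 0 := by
  rw [pol, finsetSum_coeff]
  simp only [coeff_C_mul, coeff_X_pow, mul_ite, mul_one, mul_zero]
  split_ifs with h
  · rw [Finset.sum_eq_single ⟨n, h⟩]
    · simp
    · intro b _ hb
      rw [if_neg]
      intro h1
      exact hb (Fin.ext h1.symm)
    · intro h1
      exact absurd (Finset.mem_univ _) h1
  · refine Finset.sum_eq_zero fun b _ => ?_
    rw [if_neg]
    intro h1
    exact h (h1 ▸ b.2)

theorem pol_sub {k : Type} [Field k] {N : ℕ} (a b : Fin N → k) : pol a - pol b = pol (a - b) := by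
  ext n
  rw [coeff_sub, coeff_pol, coeff_pol, coeff_pol]
  split_ifs <;> simp

theorem pol_eq_zero {k : Type} [Field k] {N : ℕ} (a : Fin N → k) (h : pol a = 0) : a = 0 := by
  ext i
  have h1 := coeff_pol a (i : ℕ)
  rw [h, coeff_zero, dif_pos i.2] at h1
  exact h1.symm

theorem not_dvd_pol {k : Type} [Field k] {P : k[X]} (a : Fin P.natDegree → k)
    (ha : a ≠ 0) : ¬ P ∣ pol a := by
  intro h
  have h0 : pol a ≠ 0 := fun h1 => ha (pol_eq_zero a h1)
  have h1 := natDegree_le_of_dvd h h0
  have h2 : (pol a).coeff (pol a).natDegree = 0 := by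
    rw [coeff_pol, dif_neg (not_lt.2 h1)]
  exact h0 (leadingCoeff_eq_zero.1 h2)

theorem P_eq {k Fc : Type} [Field k] [Fintype k] [Field Fc] [Algebra k[X] Fc] {P : k[X]}
    (hCYB : S_CYB) (c : CycD k Fc P) (hP : P.Monic) (hi : Irreducible P) :
    open Classical in algebraMap k[X] Fc P =
      ∏ a ∈ univ.filter (fun a : Fin P.natDegree → k => a ≠ 0), (-(c.lam (pol a))) := by
  classical
  obtain ⟨Ψ, hΨ, hmon, hdeg, -, hc0, -⟩ := hCYB k P hP hi
  set T := univ.filter (fun a : Fin P.natDegree → k => a ≠ 0) with hT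
  have hlam0 : ∀ a ∈ T, c.lam (pol a) ≠ 0 := by
    intro a ha h
    rw [hT, Finset.mem_filter] at ha
    exact not_dvd_pol a ha.2 ((c.zero_iff _).1 h)
  have hlam_sub : ∀ a b : k[X], c.lam (a - b) = c.lam a - c.lam b := by
    intro a b
    have := c.add (a - b) b
    rw [sub_add_cancel] at this
    rw [this, add_sub_cancel_right]
  have hinj : Set.InjOn (fun a : Fin P.natDegree → k => c.lam (pol a)) T := by
    intro a _ b _ h
    have h1 : c.lam (pol (a - b)) = 0 := by
      rw [← pol_sub, hlam_sub]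
      exact sub_eq_zero.2 h
    by_contra hne
    exact not_dvd_pol (a - b) (sub_ne_zero.2 hne) ((c.zero_iff _).1 h1)
  have hcardT : T.card = Fintype.card k ^ P.natDegree - 1 := by
    rw [hT, Finset.filter_ne', Finset.card_erase_of_mem (Finset.mem_univ _), Finset.card_univ,
      Fintype.card_fun, Fintype.card_fin]
  set Φ := Ψ.map (algebraMap k[X] Fc) with hΦ
  have hΦm : Φ.Monic := hmon.map _
  have hΦd : Φ.natDegree = Fintype.card k ^ P.natDegree - 1 := by
    rw [hΦ, hmon.natDegree_map, hdeg]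
  set S := T.image (fun a : Fin P.natDegree → k => c.lam (pol a)) with hS
  have hScard : S.card = Fintype.card k ^ P.natDegree - 1 := by
    rw [hS, Finset.card_image_of_injOn hinj, hcardT]
  have hroots : Φ.roots = S.val := by
    refine roots_eq_of_natDegree_le_card_of_ne_zero ?_ ?_ hΦm.ne_zero
    · intro y hy
      rw [hS, Finset.mem_image] at hy
      obtain ⟨a, ha, rfl⟩ := hy
      have h1 := (c.roots (c.lam (pol a))).2 ⟨_, rfl⟩
      rw [hΨ, map_mul, aeval_X] at h1
      have h2 := (mul_eq_zero.1 h1).resolve_left (hlam0 a ha)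
      rw [hΦ, eval_map, ← aeval_def]
      exact h2
    · rw [hΦd, hScard]
  have hprod := prod_multiset_X_sub_C_of_monic_of_roots_card_eq hΦm (by
    rw [hroots, hΦd]; exact hScard)
  rw [hroots] at hprod
  have h3 : Φ.eval 0 = algebraMap k[X] Fc P := by
    rw [← coeff_zero_eq_eval_zero, hΦ, coeff_map, hc0]
  rw [← h3, ← hprod]
  change eval 0 (∏ y ∈ S, (X - C y)) = _
  rw [eval_prod, hS, Finset.prod_image hinj]
  refine Finset.prod_congr rfl fun a _ => ?_
  rw [eval_sub, eval_X, eval_C, zero_sub]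

theorem lamOK (hCYB : S_CYB) (hLAU : S_LAU) : S_LAM := by
  classical
  intro k Fc _ _ _ _ _ _ _ _ _ _ P c hP hi hfin l hl
  have hPE := P_eq hCYB c hP hi
  set T := univ.filter (fun a : Fin P.natDegree → k => a ≠ 0) with hT
  have hTm : ∀ a ∈ T, ¬ P ∣ pol a := by
    intro a ha
    rw [hT, Finset.mem_filter] at ha
    exact not_dvd_pol a ha.2
  have hcardT : T.card = Fintype.card k ^ P.natDegree - 1 := by
    rw [hT, Finset.filter_ne', Finset.card_erase_of_mem (Finset.mem_univ _), Finset.card_univ,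
      Fintype.card_fun, Fintype.card_fin]
  have hP0 : P ≠ 0 := hP.ne_zero
  have h1P : ¬ P ∣ 1 := fun h => hi.not_isUnit (isUnit_of_dvd_one h)
  have hlam1 : c.lam 1 ≠ 0 := (hLAU k Fc P c hP hi 1 h1P).2.2.1
  set n := Fintype.card k ^ P.natDegree - 1 with hn
  have hn0 : 0 < n := by
    have h1 : 1 < Fintype.card k := Fintype.one_lt_card
    have h2 : 1 < Fintype.card k ^ P.natDegree :=
      Nat.one_lt_pow hi.natDegree_pos.ne' h1
    omega
  set u : Fc := ∏ a ∈ T, (-(c.lam (pol a) / c.lam 1)) with hu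
  set w : Fc := ∏ a ∈ T, (-(c.lam 1 / c.lam (pol a))) with hw
  have hui : IsIntegral k[X] u :=
    IsIntegral.prod _ fun a ha => (hLAU k Fc P c hP hi (pol a) (hTm a ha)).2.2.2.1.neg
  have hwi : IsIntegral k[X] w :=
    IsIntegral.prod _ fun a ha => (hLAU k Fc P c hP hi (pol a) (hTm a ha)).2.2.2.2.neg
  have e1 : algebraMap k[X] Fc P = c.lam 1 ^ n * u := by
    rw [hPE, ← hcardT, ← Finset.prod_const, hu, ← Finset.prod_mul_distrib]
    refine Finset.prod_congr rfl fun a _ => ?_
    field_simp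
  have e2 : c.lam 1 ^ n = algebraMap k[X] Fc P * w := by
    rw [hPE, ← hcardT, ← Finset.prod_const, hw, ← Finset.prod_mul_distrib]
    refine Finset.prod_congr rfl fun a ha => ?_
    have h0 := (hLAU k Fc P c hP hi (pol a) (hTm a ha)).2.2.1
    field_simp
  have E1 : algebraMap k[X] (integralClosure k[X] Fc) P = l ^ n * (⟨u, hui⟩ : integralClosure k[X] Fc) := by
    apply Subtype.ext
    rw [MulMemClass.coe_mul, SubmonoidClass.coe_pow, hl]
    exact e1
  have E2 : l ^ n = algebraMap k[X] (integralClosure k[X] Fc) P * (⟨w, hwi⟩ : integralClosure k[X] Fc) := by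
    apply Subtype.ext
    rw [MulMemClass.coe_mul, SubmonoidClass.coe_pow, hl]
    exact e2
  have hmap : Ideal.map (algebraMap k[X] (integralClosure k[X] Fc)) (Ideal.span {P}) =
      Ideal.span {algebraMap k[X] (integralClosure k[X] Fc) P} := by
    rw [Ideal.map_span, Set.image_singleton]
  have hI : (Ideal.span {l}) ^ n = Ideal.map (algebraMap k[X] (integralClosure k[X] Fc)) (Ideal.span {P}) := by
    rw [hmap, Ideal.span_singleton_pow]
    refine le_antisymm ?_ ?_
    · rw [Ideal.span_singleton_le_span_singleton]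
      exact ⟨_, E2⟩
    · rw [Ideal.span_singleton_le_span_singleton]
      exact ⟨_, E1⟩
  have hl0 : l ≠ 0 := by
    rintro rfl
    exact hlam1 (hl.symm.trans rfl)
  have hfin' : Module.Finite k[X] (integralClosure k[X] Fc) :=
    IsIntegralClosure.finite k[X] (RatFunc k) Fc (integralClosure k[X] Fc)
  have htf0 : Module.IsTorsionFree k[X] Fc :=
    Module.isTorsionFree_iff_algebraMap_injective.2 c.inj
  have htf : Module.IsTorsionFree k[X] (integralClosure k[X] Fc) :=
    IsIntegralClosure.isTorsionFree k[X] Fc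
  have hmax : (Ideal.span {P} : Ideal k[X]).IsMaximal :=
    PrincipalIdealRing.isMaximal_of_irreducible hi
  have hp0 : (Ideal.span {P} : Ideal k[X]) ≠ ⊥ := by
    rw [Ne, Ideal.span_singleton_eq_bot]; exact hP0
  have hmp0 : Ideal.map (algebraMap k[X] (integralClosure k[X] Fc)) (Ideal.span {P}) ≠ ⊥ := by
    rw [← hI, Ideal.span_singleton_pow, Ne, Ideal.span_singleton_eq_bot]
    exact pow_ne_zero _ hl0
  obtain ⟨h1, h2⟩ := key (R := k[X]) (S := integralClosure k[X] Fc) (K := RatFunc k) (L := Fc) hp0 hmp0 hn0 hI hfin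
  refine ⟨h1, hl0, fun q hq hPq => h2 q hq ?_⟩
  rw [hmap, Ideal.span_singleton_le_iff_mem]
  exact hPq

end Pool.Agent.W230.GK
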